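import Pool.Agent.L0h34.CW.Sub
import Pool.Agent.L0h34.CW.CYC
import Pool.Agent.L0h34.CW.UND
import Pool.Agent.L0h34.CW.FCC

/-!
# Monsters and co-context-free groups

A finitely generated group is co-context-free if its co-word problem (the set of the words in the
generators with nontrivial value) is a context-free language.  This class contains many groups
that look like candidates for monsters or hosts of monsters: the Higman-Thompson groups, all their
finitely generated subgroups, the Houghton groups, groups of local similarities, wreath products ...

We show that no monster of type (2) (bounded exponent), (4) (all proper nontrivial subgroups of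
order `p`) or (6) (finitely many conjugacy classes) is co-context-free, and that no such monster,
finitely presented or not, is a subgroup of a co-context-free group.  More generally a finitely
generated torsion group with an embedding in a co-context-free group is finite, and infinite cyclic
subgroups of co-context-free groups are undistorted.

So finitely presented co-context-free groups with property (2), (4) or (6) are finite.
-/

set_option autoImplicit false

namespace Pool.Agent.Results.MP_65b575_al.CoContextFree

open Pool.Agent.L0h34.CW

/-- `G` is (finitely generated and) co-context-free: for a finite family of generators (as a monoid)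
the language of the words with nontrivial value is context-free. -/
def CoCF (G : Type) [Group G] : Prop :=
  ∃ n : ℕ, ∃ f : Fin n → G,
    Function.Surjective (fun w : List (Fin n) => (w.map f).prod) ∧
    Language.IsContextFree ({w : List (Fin n) | (w.map f).prod ≠ 1} : Language (Fin n))

/-- (2) There is `n ≥ 1` with `g ^ n = 1` for all `g`. -/
def Type2 (G : Type) [Group G] : Prop := ∃ n : ℕ, 1 ≤ n ∧ ∀ g : G, g ^ n = 1

/-- (4) There is a prime `p` such that every nontrivial proper subgroup is cyclic of order `p`. -/
def Type4 (G : Type) [Group G] : Prop :=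
  ∃ p : ℕ, p.Prime ∧ ∀ H : Subgroup G, H ≠ ⊥ → H ≠ ⊤ → IsCyclic H ∧ Nat.card H = p

/-- (6) There are only finitely many conjugacy classes. -/
def Type6 (G : Type) [Group G] : Prop := Finite (ConjClasses G)

/-- The subgroup generated by `g` is undistorted: in every finite generating family (as a monoid)
the length of the shortest word for `g ^ k` grows at least linearly. -/
def Undistorted {G : Type} [Group G] (g : G) : Prop :=
  ∀ (n : ℕ) (f : Fin n → G), Function.Surjective (fun w : List (Fin n) => (w.map f).prod) →
    ∃ C : ℕ, ∀ (k : ℕ) (w : List (Fin n)), (w.map f).prod = g ^ k → k ≤ C * (w.length + 1)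

/-- Comparison of two generating families. -/
theorem undistorted_of {G : Type} [Group G] {n : ℕ} {f : Fin n → G}
    (hf : Function.Surjective (ev f)) {g : G} {C : ℕ}
    (hC : ∀ (k : ℕ) (w : List (Fin n)), ev f w = g ^ k → k ≤ C * (w.length + 1)) :
    Undistorted g := by
  intro m f' _
  have h1 : ∀ i : Fin m, ∃ w : List (Fin n), ev f w = f' i := fun i => hf _
  choose h hh using h1
  obtain ⟨L, hL⟩ := Finite.exists_le (fun i => (h i).length)
  refine ⟨C * (L + 1), fun k w hw => ?_⟩
  have h2 : ev f (w.flatMap h) = g ^ k := by
    rw [flatMap_ev, ← hw]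
    change (w.map fun b => ev f (h b)).prod = _
    congr 1
    exact List.map_congr_left fun i _ => hh i
  have h3 : (w.flatMap h).length ≤ L * w.length := by
    clear hw h2
    induction w with
    | nil => simp
    | cons b w ih =>
      rw [List.flatMap_cons, List.length_append, List.length_cons]
      have := hL b
      calc (h b).length + (w.flatMap h).length ≤ L + L * w.length := by omega
        _ = L * (w.length + 1) := by ring
  have h4 := hC k _ h2
  calc k ≤ C * ((w.flatMap h).length + 1) := h4
    _ ≤ C * (L * w.length + 1) := Nat.mul_le_mul_left _ (by omega)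
    _ ≤ C * ((L + 1) * (w.length + 1)) := Nat.mul_le_mul_left _ (by nlinarith)
    _ = C * (L + 1) * (w.length + 1) := by ring

/-- A group of type (4) is torsion. -/
theorem Type4.torsion {G : Type} [Group G] [Infinite G] (h : Type4 G) : Tors G := by
  obtain ⟨p, hp, h⟩ := h
  intro g
  by_contra hcon
  push Not at hcon
  have hinj : Function.Injective (fun n : ℤ => g ^ n) := by
    rw [injective_zpow_iff_not_isOfFinOrder]
    intro hfin
    obtain ⟨n, hn, hn'⟩ := isOfFinOrder_iff_pow_eq_one.1 hfin
    exact hcon n hn hn'
  -- the subgroup generated by `g ^ 2`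
  have key : ∀ k : ℕ, 0 < k → Subgroup.zpowers (g ^ k) = ⊤ := by
    intro k hk
    by_contra htop
    have hbot : Subgroup.zpowers (g ^ k) ≠ ⊥ := by
      rw [Ne, Subgroup.zpowers_eq_bot]
      exact hcon k hk
    obtain ⟨_, hcard⟩ := h _ hbot htop
    have h1 : (g ^ k) ^ p = 1 := by
      have hmem : g ^ k ∈ Subgroup.zpowers (g ^ k) := Subgroup.mem_zpowers _
      have h2 : (⟨g ^ k, hmem⟩ : Subgroup.zpowers (g ^ k)) ^ Nat.card (Subgroup.zpowers (g ^ k)) = 1 :=
        pow_card_eq_one'
      rw [hcard] at h2
      exact congrArg Subtype.val h2
    rw [← pow_mul] at h1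
    exact hcon (k * p) (Nat.mul_pos hk hp.pos) h1
  have h2 : g ∈ Subgroup.zpowers (g ^ 2) := by
    rw [key 2 (by norm_num)]
    exact Subgroup.mem_top g
  obtain ⟨j, hj⟩ := Subgroup.mem_zpowers_iff.1 h2
  have h3 : g ^ (2 * j) = g ^ (1 : ℤ) := by
    rw [zpow_one, zpow_mul]
    exact_mod_cast hj
  have h4 := hinj h3
  omega

/-- **No infinite finitely generated subgroup of a co-context-free group is a monster of type (2),
(4) or (6).**  Let `H` be finitely generated and embedded in the co-context-free group `G` (for
example `H = G`).  If `H` is torsion, then it is finite; the elements of infinite order of `H` are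
undistorted in `H`; and if `H` is infinite, then `H` is of none of the types (2), (4), (6). -/
theorem result (G : Type) [Group G] (hG : CoCF G) (H : Type) [Group H] [Group.FG H]
    (φ : H →* G) (hφ : Function.Injective φ) :
    ((∀ h : H, ∃ n : ℕ, 0 < n ∧ h ^ n = 1) → Finite H) ∧
    (∀ h : H, (∀ n : ℕ, 0 < n → h ^ n ≠ 1) → Undistorted h) ∧
    (Infinite H → ¬ Type2 H ∧ ¬ Type4 H ∧ ¬ Type6 H) := by
  obtain ⟨n, f, hf, hcf⟩ := hG
  obtain ⟨m, f', hf', hcf'⟩ := exists_alphabet f hf hcf H φ hφ
  have h1 : Tors H → Finite H := fun ht => all_main (Fin m) H ht f' hf' hcf'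
  have h2 := und subg gram cyc (Fin m) H f' hf' hcf'
  refine ⟨h1, fun h hh => ?_, fun hinf => ⟨?_, ?_, ?_⟩⟩
  · obtain ⟨C, hC⟩ := h2 h hh
    exact undistorted_of hf' hC
  · rintro ⟨k, hk, hk'⟩
    have := h1 fun h => ⟨k, hk, hk' h⟩
    exact not_finite H
  · intro h4
    have := h1 h4.torsion
    exact not_finite H
  · intro h6
    have := h1 (fcc (Fin m) H f' hf' h6 h2)
    exact not_finite H

end Pool.Agent.Results.MP_65b575_al.CoContextFree
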