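import Pool.Agent.L0h38.MON.WP3
import Pool.Agent.L0h38.MON.MEM3
import Pool.Agent.L0h41.MON.COD
import Pool.Agent.L0h23.MON.CEN
import Pool.Agent.L0h90.MON.NAB
import Pool.Agent.L0h48.MON.T43
import Pool.Agent.L0h91.MON.GEN3
import Pool.Agent.L0h91.MON.MEM4

/-!
# Decision problems in finitely presented monsters of types (3), (4) and (6)

It is not known whether finitely presented monsters of types (3), (4) and (6) exist. We show that
they are algorithmically tame.

1. Let `G` be a finitely presented group with finitely many conjugacy classes. Then every relation
   `R a b` between elements of `G` which is invariant under conjugation of `a` and, separately, of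
   `b` is decidable: there is an algorithm which decides for two words whether their values are in
   the relation. For example: `a = 1` (word problem), `a` and `b` are conjugate (conjugacy problem),
   `a` has finite order, `a` is conjugate to a power of `b`, `a` has an `m`-th root, `b` is in the
   normal closure of `a`, `a` is a product of `k` conjugates of `b`.
2. Let `G` be a finitely presented infinite group which is not cyclic and all of whose proper
   subgroups are cyclic. Then the word problem of `G` is solvable, and there is an algorithm which
   decides whether the values of given words generate `G`. If the elements of finite order of `G`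
   have bounded orders (for instance if `G` is torsion-free), or if `G` is a torsion group, then the
   membership problem of `G` is solvable: there is an algorithm which decides whether the value of a
   word is in the subgroup generated by the values of given words.
3. Let `G` be a finitely presented infinite group such that all nontrivial proper subgroups are cyclic
   of order `p`. Then the word problem and the membership problem of `G` are solvable, and it is
   decidable whether given words generate `G`.

The letters of the words have arbitrary fixed values `f i` in `G`, almost all of them `1`
(`FinSupp`), which need not generate `G`.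

Proof of 1: each element is conjugate to one of finitely many representatives, and a conjugation can be
found by enumeration. Proof of 2: proper normal subgroups of `G` are central, and the centre is cyclic,
generated by `z`. So a word `w` is nontrivial if and only if the group is killed by the relation
`w = 1`, or `w` is a power `z ^ k` with `k` not divisible by the order of `z`; both can be found
by enumeration. For the membership problem: if `y` is not in the subgroup generated by the given
elements, then this subgroup is generated by one element `u`, and one of the following
can be found: (a) `y` does not commute with `u`; (b) `u` has finite order and `y` is different from its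
powers; (c) `u = v ^ a`, `y = v ^ k` where `v` has infinite order and `a` does not divide `k`.
-/

set_option autoImplicit false

namespace Pool.Agent.Results.MP_65b575_al.DecisionProblems

open Pool.Agent.L0h38.MON

/-- 1. In a finitely presented group with finitely many conjugacy classes every relation which is
invariant under separate conjugation is decidable.
2. In a finitely presented monster of type (3) the word problem and the generation problem are
solvable, and also the membership problem if the torsion is of bounded exponent or if all elements
have finite order.
3. In a finitely presented monster of type (4) the word problem, the generation problem and the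
membership problem are solvable. -/
theorem result :
    (∀ (G : Type) [Group G] [Group.IsFinitelyPresented G], Type6 G →
      ∀ R : G → G → Prop, (∀ a b x y : G, R a b → R (x * a * x⁻¹) (y * b * y⁻¹)) →
      ∀ f : ℕ → G, FinSupp f →
      ComputablePred fun p : List (ℕ × Bool) × List (ℕ × Bool) =>
        R (value f p.1) (value f p.2)) ∧
    (∀ (G : Type) [Group G] [Group.IsFinitelyPresented G], Infinite G → Type3 G →
      ∀ f : ℕ → G, FinSupp f →
      (ComputablePred fun w : List (ℕ × Bool) => value f w = 1) ∧
      (ComputablePred fun L : List (List (ℕ × Bool)) => gens f L = ⊤) ∧
      (OkTors G → ComputablePred fun p : List (List (ℕ × Bool)) × List (ℕ × Bool) =>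
        value f p.2 ∈ gens f p.1)) ∧
    (∀ (G : Type) [Group G] [Group.IsFinitelyPresented G], Infinite G → Type4 G →
      ∀ f : ℕ → G, FinSupp f →
      (ComputablePred fun w : List (ℕ × Bool) => value f w = 1) ∧
      (ComputablePred fun L : List (List (ℕ × Bool)) => gens f L = ⊤) ∧
      (ComputablePred fun p : List (List (ℕ × Bool)) × List (ℕ × Bool) =>
        value f p.2 ∈ gens f p.1)) := by
  have cod : S_COD := Pool.Agent.L0h41.MON.COD
  have cen : S_CEN := Pool.Agent.L0h23.MON.CEN
  have nab : S_NAB := Pool.Agent.L0h90.MON.NAB
  have wp : ∀ (G : Type) [Group G] [Group.IsFinitelyPresented G], Infinite G → Type3 G →
      SolvableWP G := fun G _ _ hinf h3 => WP3 cod cen nab G hinf h3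
  have ge : ∀ (G : Type) [Group G] [Group.IsFinitelyPresented G], Type3 G →
      ∀ f : ℕ → G, FinSupp f → ComputablePred fun L : List (List (ℕ × Bool)) => gens f L = ⊤ :=
    fun G _ _ h3 => Pool.Agent.L0h91.MON.GEN3 cod G h3
  refine ⟨fun G _ _ h6 => DEC6 cod G h6, fun G _ _ hinf h3 f hf =>
    ⟨wp G hinf h3 f hf, ge G h3 f hf, fun hT => MEM3 cod cen nab G hinf h3 hT f hf⟩, ?_⟩
  intro G _ _ hinf h4 f hf
  have h3 : Type3 G := (Pool.Agent.L0h48.MON.T43 cen G hinf h4).1
  exact ⟨wp G hinf h3 f hf, ge G h3 f hf,
    Pool.Agent.L0h91.MON.MEM4 G hinf h4 h3 (ge G h3) (wp G hinf h3) f hf⟩

end Pool.Agent.Results.MP_65b575_al.DecisionProblems
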