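import Pool.Agent.L0h7.MS.MAIN4
import Pool.Agent.L0h7.MS.WR2
import Pool.Agent.L0h61.MS.BAI
import Pool.Agent.L0h69.MS.EXT
import Pool.Agent.L0h69.MS.RSG
import Pool.Agent.L0h91.MS.GIN
import Pool.Agent.L0h91.MS.KFN
import Pool.Agent.L0h90.MS.OPN
import Pool.Agent.L0h23.MS.PRW
import Pool.Agent.L0h71.MS.RSF
import Pool.Agent.L0h81.MS.TYP
import Pool.Agent.L0h57.MS.NBH
import Pool.Agent.L0h89.MS.ISP
import Pool.Agent.L0h98.MS.ISD
import Pool.Agent.L0h6.MS.SM4
import Pool.Agent.L0h6.MS.SM3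
import Pool.Agent.L0h95.MS.VC3
import Pool.Agent.L0h48.MS.FN6
import Pool.Agent.L0h2.MS.FI6
import Pool.Agent.L0h34.MS.SM6
import Pool.Agent.L0h28.MS.W2G
import Pool.Agent.L0h72.MS.WCC
import Pool.Agent.L0h25.MS.WFP

/-!
# MP_65b575_al: finitely presented monsters, isolated points and generic groups

For the types (2), (3), (4), (6) the existence of a finitely presented monster is equivalent to a statement
on the space of the infinite groups with two marked generators (Chabauty topology): type (2): the groups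
of finite exponent are not meagre; types (3), (4), (6): there is an isolated point of the type. Moreover
for the types (2), (6) and for torsion groups there is one with two generators. (The reduction of the
types (3), (4), (6) to simple groups is in the hand-in SimpleMonsters.)
-/

set_option autoImplicit false

open Function

noncomputable section

namespace Pool.Agent.Results.MP_65b575_al.GenericGroups

/-- The infinite groups with `r` marked generators: the normal subgroups of infinite index of the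
free group with basis `Fin r`. -/
def Marked (r : ℕ) : Type :=
  {K : Subgroup (FreeGroup (Fin r)) // K.Normal ∧ Infinite (FreeGroup (Fin r) ⧸ K)}

/-- the characteristic function of the normal subgroup -/
def chi {r : ℕ} (N : Marked r) (w : FreeGroup (Fin r)) : Bool :=
  open Classical in decide (w ∈ N.1)

/-- The topology of pointwise convergence of the characteristic functions (Chabauty topology). -/
instance (r : ℕ) : TopologicalSpace (Marked r) :=
  TopologicalSpace.induced chi inferInstance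

instance {r : ℕ} (N : Marked r) : N.1.Normal := N.2.1

/-- the group of a point -/
abbrev grp {r : ℕ} (N : Marked r) : Type := FreeGroup (Fin r) ⧸ N.1

/-- `G` is generated by `r` elements -/
def Gen (r : ℕ) (G : Type) [Group G] : Prop := ∃ f : FreeGroup (Fin r) →* G, Surjective f

/-- there is a finitely presented infinite group with the property `P` -/
def FP (P : (G : Type) → [Group G] → Prop) : Prop :=
  ∃ (G : Type) (_ : Group G), Group.IsFinitelyPresented G ∧ Infinite G ∧ P G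

/-- there is a finitely presented infinite group with the property `P` and `r` generators -/
def FPr (r : ℕ) (P : (G : Type) → [Group G] → Prop) : Prop :=
  ∃ (G : Type) (_ : Group G), Group.IsFinitelyPresented G ∧ Infinite G ∧ P G ∧ Gen r G

/-- the exponent divides a power of `n` -/
def PowExp (n : ℕ) (G : Type) [Group G] : Prop := ∃ k : ℕ, ∀ g : G, g ^ (n ^ k) = 1

/-- every element has finite order -/
def Tors (G : Type) [Group G] : Prop := ∀ g : G, ∃ n : ℕ, 0 < n ∧ g ^ n = 1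

/-- type (2) -/
def Type2 (G : Type) [Group G] : Prop := ∃ n : ℕ, 1 ≤ n ∧ ∀ g : G, g ^ n = 1

/-- type (3) -/
def Type3 (G : Type) [Group G] : Prop := ¬ IsCyclic G ∧ ∀ H : Subgroup G, H ≠ ⊤ → IsCyclic H

/-- type (4) -/
def Type4 (G : Type) [Group G] : Prop :=
  ∃ p : ℕ, p.Prime ∧ ∀ H : Subgroup G, H ≠ ⊥ → H ≠ ⊤ → IsCyclic H ∧ Nat.card H = p

/-- type (5) -/
def Type5 (G : Type) [Group G] : Prop := ∀ g : G, ∀ m : ℕ, 1 ≤ m → ∃ h : G, h ^ m = g

/-- type (6) -/
def Type6 (G : Type) [Group G] : Prop := Finite (ConjClasses G)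

/-- Finitely presented monsters, isolated points and generic groups. -/
theorem result :
    (∀ r : ℕ, BaireSpace (Marked r)) ∧
    -- type (2), and the exponents dividing a power of `n`
    ((FP (fun G _ => Type2 G) ↔ FPr 2 (fun G _ => Type2 G)) ∧
      ∀ r : ℕ, 2 ≤ r →
        (FP (fun G _ => Type2 G) ↔ ¬ IsMeagre {N : Marked r | Type2 (grp N)}) ∧
        (FP (fun G _ => Type2 G) ↔ (interior {N : Marked r | Type2 (grp N)}).Nonempty)) ∧
    (∀ n : ℕ, 1 ≤ n → (FP (fun G _ => PowExp n G) ↔ FPr 2 (fun G _ => PowExp n G)) ∧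
      ∀ r : ℕ, 2 ≤ r →
        (FP (fun G _ => PowExp n G) ↔ ¬ IsMeagre {N : Marked r | PowExp n (grp N)})) ∧
    -- torsion groups
    ((FP (fun G _ => Tors G) ↔ FPr 2 (fun G _ => Tors G)) ∧
      ∀ r : ℕ, 2 ≤ r →
        (FP (fun G _ => Tors G) ↔ (interior {N : Marked r | Tors (grp N)}).Nonempty)) ∧
    -- type (3)
    (∀ r : ℕ, 2 ≤ r →
      (FP (fun G _ => Type3 G) ↔ (interior {N : Marked r | Type3 (grp N)}).Nonempty) ∧
      (FP (fun G _ => Type3 G) ↔
        ∃ N : Marked r, IsOpen ({N} : Set (Marked r)) ∧ Type3 (grp N))) ∧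
    -- type (4)
    ((∀ (r : ℕ) (N : Marked r), Type4 (grp N) →
        (Group.IsFinitelyPresented (grp N) ↔ IsOpen ({N} : Set (Marked r)))) ∧
      ∀ r : ℕ, 2 ≤ r →
        (FP (fun G _ => Type4 G) ↔ (interior {N : Marked r | Type4 (grp N)}).Nonempty) ∧
        (FP (fun G _ => Type4 G) ↔
          ∃ N : Marked r, IsOpen ({N} : Set (Marked r)) ∧ Type4 (grp N))) ∧
    -- type (6)
    ((∀ (r : ℕ) (N : Marked r), Type6 (grp N) →
        (Group.IsFinitelyPresented (grp N) ↔ IsOpen ({N} : Set (Marked r)))) ∧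
      (FP (fun G _ => Type6 G) ↔ FPr 2 (fun G _ => Type6 G)) ∧
      ∀ r : ℕ, 2 ≤ r →
        (FP (fun G _ => Type6 G) ↔ (interior {N : Marked r | Type6 (grp N)}).Nonempty) ∧
        (FP (fun G _ => Type6 G) ↔
          ∃ N : Marked r, IsOpen ({N} : Set (Marked r)) ∧ Type6 (grp N))) ∧
    -- type (5)
    (∀ r : ℕ,
      (FPr r (fun G _ => Type5 G) ↔ (interior {N : Marked r | Type5 (grp N)}).Nonempty)) := by
  have hNBH := Pool.Agent.L0h57.MS.t_NBH Pool.Agent.L0h91.MS.t_KFN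
  have hOPN := Pool.Agent.L0h90.MS.t_OPN
  have hRSG := Pool.Agent.L0h69.MS.t_RSG Pool.Agent.L0h71.MS.t_RSF
  have hEXT := Pool.Agent.L0h69.MS.t_EXT Pool.Agent.L0h91.MS.t_KFN Pool.Agent.L0h71.MS.t_RSF
  have hPRW := Pool.Agent.L0h23.MS.t_PRW
  have hGIN := Pool.Agent.L0h91.MS.t_GIN hNBH hOPN
  have hTYP := Pool.Agent.L0h81.MS.t_TYP
  have hSM6 := Pool.Agent.L0h34.MS.SM6.t_SM6 hRSG hTYP Pool.Agent.L0h48.MS.t_FN6 Pool.Agent.L0h2.MS.t_FI6
  obtain ⟨a1, a2, a3, a4, a5, a6, a7, a8⟩ := Pool.Agent.L0h7.MS.main hRSG hEXT hPRW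
    Pool.Agent.L0h7.MS.t_WR2 hOPN (Pool.Agent.L0h61.MS.t_BAI hNBH) hGIN hTYP
  have hISP := Pool.Agent.L0h89.MS.t_ISP hOPN
  have hISD := Pool.Agent.L0h98.MS.t_ISD hNBH hOPN
  obtain ⟨⟨-, b2⟩, ⟨-, b4⟩, ⟨-, b6, b7⟩⟩ := Pool.Agent.L0h7.MS.main2 hTYP hISP hISD
    Pool.Agent.L0h6.MS.t_SM4 (Pool.Agent.L0h6.MS.t_SM3 hTYP Pool.Agent.L0h95.MS.t_VC3) hSM6
    Pool.Agent.L0h28.MS.t_W2G Pool.Agent.L0h72.MS.t_WCC
    (Pool.Agent.L0h25.MS.t_WFP hEXT hPRW)
  refine ⟨a1, ⟨⟨a3.1, Pool.Agent.L0h7.MS.fp_of_fpr⟩, a3.2⟩,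
    fun n hn => ⟨⟨(a2 n hn).1, Pool.Agent.L0h7.MS.fp_of_fpr⟩, (a2 n hn).2⟩,
    ⟨⟨a4.1, Pool.Agent.L0h7.MS.fp_of_fpr⟩, a4.2⟩,
    fun r hr => ⟨a5 r hr, fun h => ?_, fun h => ?_⟩,
    ⟨fun r N h => ⟨fun h1 => ?_, fun h1 => hISP r N h1⟩, fun r hr => ⟨a6 r hr, fun h => ?_, fun h => ?_⟩⟩,
    ⟨fun r N h => ⟨fun h1 => ?_, fun h1 => hISP r N h1⟩, b6,
      fun r hr => ⟨⟨fun h => ?_, fun h => ?_⟩, b7 r hr⟩⟩, a7⟩
  · obtain ⟨N, h1, -, h2⟩ := (b2 r hr).1 h
    exact ⟨N, h1, h2⟩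
  · exact Pool.Agent.L0h7.MS.fp_of_fpr
      (Pool.Agent.L0h7.MS.fpr_of_isolated (P := fun G _ => Pool.Agent.L0h7.MS.Type3 G) hISP h)
  · exact Pool.Agent.L0h7.MS.simple_isolated hISD N h1 (Pool.Agent.L0h6.MS.t_SM4 (grp N) N.2.2 h)
  · obtain ⟨N, h1, -, h2⟩ := (b4 r hr).1 h
    exact ⟨N, h1, h2⟩
  · exact Pool.Agent.L0h7.MS.fp_of_fpr
      (Pool.Agent.L0h7.MS.fpr_of_isolated (P := fun G _ => Pool.Agent.L0h7.MS.Type4 G) hISP h)
  · exact Pool.Agent.L0h7.MS.type6_isolated hISD N h1 h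
  · exact (a8 r).1 (Pool.Agent.L0h7.MS.fpr_mono hr (b6.1 h))
  · exact Pool.Agent.L0h7.MS.fp_of_fpr ((a8 r).2 h)

end Pool.Agent.Results.MP_65b575_al.GenericGroups
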