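import Pool.Agent.L0h77.MO.Dist
import Pool.Agent.L0h77.MO.Five
import Pool.Agent.L0h77.MO.Quot
import Pool.Agent.L0h77.MO.Ea
import Pool.Agent.L0h90.MO.RAT
import Pool.Agent.L0h60.MO.FRM
import Pool.Agent.L0h89.MO.FIC
import Pool.Agent.L0h28.MO.CYZ
import Pool.Agent.L0h39.MO.CEN

/-!
# Structure of monsters of types (3), (4), (6): simple groups behind them, exclusions

The types are those of the problem.  `Type2 G`: bounded exponent; `Type3 G`: `G` is not cyclic and
all proper subgroups are cyclic; `Type4 G`: for some prime `p` all nontrivial proper subgroups are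
cyclic of order `p`; `Type5 G`: `G` is complete; `Type6 G`: finitely many conjugacy classes;
`Type7 G`: `G` is finitely generated of intermediate growth.

Structure theorem.  Let `G` be finitely generated and infinite.

* If `G` has type (3) then every proper normal subgroup is central, the centre is cyclic and
  `G / Z(G)` is a simple infinite group of type (3), finitely presented if `G` is.
  Groups of type (4) are simple (and of type (3)).
* If `G` has type (6) then there are a normal subgroup `R` of finite index in `G` and a normal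
  subgroup `M` of `R` such that `R / M` is a simple infinite group of type (6), finitely
  presented if `G` is.
* If `G` has type (6) then every element `g` has a positive power `a` which, for every `m > 0`, is
  conjugate to `a ^ k` for some `k > 1` divisible by `m`; if `g` has infinite order, then some
  positive power lies in a copy of the rationals (as its `1`); the powers `g ^ m` of any element have
  word length `O(log m)` (exponential distortion); and `G` has bounded exponent or contains a free
  monoid of rank two.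
* Hence: a group of type (6) in which the infinite cyclic subgroups are undistorted has type (2);
  a group of types (6) and (3), or (6) and (7), has type (2); a group with exactly two conjugacy
  classes has type (2) or (5).
* If `G` has type (5) then it has none of the types (2), (3), (4), every element of infinite
  order lies in a copy of the rationals, and `G` has a simple infinite quotient of type (5).
* If `G` is elementary amenable, then it has none of the types (2), (3), (4), (5), (6).

Reduction.  For `k = 3, 4, 6`: there is a finitely presented infinite group with property (k) if and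
only if there is a *simple* finitely presented infinite group with property (k).
-/

set_option autoImplicit false
set_option maxHeartbeats 400000

namespace Pool.Agent.Results.MP_65b575_al.SimpleMonsters

open Pool.Agent.L0h77.MO Subgroup

theorem fg_of_fp (G : Type) [Group G] (h : Group.IsFinitelyPresented G) : Group.FG G := by
  obtain ⟨n, φ, hφ, -⟩ := h.out
  exact Group.fg_of_surjective hφ

theorem cyz : S_CYZ := Pool.Agent.L0h28.MO.t_CYZ

theorem cen : S_CEN := Pool.Agent.L0h39.MO.CEN cyz

/-- See the description at the top of the file. -/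
theorem result :
    (∀ (G : Type) [Group G] [Group.FG G] [Infinite G],
      -- types (3) and (4)
      (Type3 G →
        (∀ N : Subgroup G, N.Normal → N ≠ ⊤ → N ≤ center G) ∧ IsCyclic (center G) ∧
        IsSimpleGroup (G ⧸ center G) ∧ Infinite (G ⧸ center G) ∧ Type3 (G ⧸ center G) ∧
        (Group.IsFinitelyPresented G → Group.IsFinitelyPresented (G ⧸ center G))) ∧
      (Type4 G → Type3 G ∧ IsSimpleGroup G) ∧
      -- type (6)
      (Type6 G → ∃ (R : Subgroup G) (M : Subgroup R) (_ : M.Normal), R.Normal ∧ R.FiniteIndex ∧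
        IsSimpleGroup (R ⧸ M) ∧ Infinite (R ⧸ M) ∧ Type6 (R ⧸ M) ∧
        (Group.IsFinitelyPresented G → Group.IsFinitelyPresented (R ⧸ M))) ∧
      (Type6 G →
        (∀ g : G, ∃ n : ℕ, 0 < n ∧ ∀ m : ℕ, 0 < m →
          ∃ k : ℕ, 2 ≤ k ∧ m ∣ k ∧ IsConj (g ^ n) ((g ^ n) ^ k)) ∧
        (∀ g : G, (∀ n : ℕ, 0 < n → g ^ n ≠ 1) → ∃ n : ℕ, 0 < n ∧
          ∃ f : Multiplicative ℚ →* G, Function.Injective f ∧
            f (Multiplicative.ofAdd 1) = g ^ n) ∧
        (∀ S : Finset G, closure (S : Set G) = ⊤ → ∀ g : G,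
          ∃ C : ℕ, ∀ m : ℕ, g ^ m ∈ ball S (C * (Nat.log 2 m + 1))) ∧
        (Type2 G ∨ ∃ x y : G, Function.Injective (FreeMonoid.lift ![x, y]))) ∧
      (Type6 G → (∃ S : Finset G, closure (S : Set G) = ⊤ ∧
          ∀ g : G, (∀ n : ℕ, 0 < n → g ^ n ≠ 1) →
            ∃ c : ℕ, ∀ m r : ℕ, g ^ m ∈ ball S r → m ≤ c * (r + 1)) → Type2 G) ∧
      (Type6 G → Type3 G ∨ Type7 G → Type2 G) ∧
      (Nat.card (ConjClasses G) = 2 → Type2 G ∨ Type5 G) ∧
      -- type (5)
      (Type5 G → ¬ Type2 G ∧ ¬ Type3 G ∧ ¬ Type4 G ∧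
        (∀ g : G, (∀ n : ℕ, 0 < n → g ^ n ≠ 1) →
          ∃ f : Multiplicative ℚ →* G, Function.Injective f ∧ f (Multiplicative.ofAdd 1) = g) ∧
        ∃ (M : Subgroup G) (_ : M.Normal),
          IsSimpleGroup (G ⧸ M) ∧ Infinite (G ⧸ M) ∧ Type5 (G ⧸ M)) ∧
      -- elementary amenable groups
      (EA G → ¬ Type2 G ∧ ¬ Type3 G ∧ ¬ Type4 G ∧ ¬ Type5 G ∧ ¬ Type6 G)) ∧
    -- reduction to simple groups
    ((∃ (G : Type) (_ : Group G), Group.IsFinitelyPresented G ∧ Infinite G ∧ Type3 G) ↔
      ∃ (G : Type) (_ : Group G),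
        Group.IsFinitelyPresented G ∧ Infinite G ∧ IsSimpleGroup G ∧ Type3 G) ∧
    ((∃ (G : Type) (_ : Group G), Group.IsFinitelyPresented G ∧ Infinite G ∧ Type4 G) ↔
      ∃ (G : Type) (_ : Group G),
        Group.IsFinitelyPresented G ∧ Infinite G ∧ IsSimpleGroup G ∧ Type4 G) ∧
    ((∃ (G : Type) (_ : Group G), Group.IsFinitelyPresented G ∧ Infinite G ∧ Type6 G) ↔
      ∃ (G : Type) (_ : Group G),
        Group.IsFinitelyPresented G ∧ Infinite G ∧ IsSimpleGroup G ∧ Type6 G) := by
  have hinf : ∀ (G : Type) [Group G], (∀ g : G, ¬ InfOrd g) ∨ ∃ g : G, InfOrd g := by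
    intro G _
    by_cases h : ∀ g : G, ¬ InfOrd g
    · exact Or.inl h
    · push Not at h
      exact Or.inr h
  refine ⟨?_, ⟨?_, ?_⟩, ⟨?_, ?_⟩, ⟨?_, ?_⟩⟩
  · intro G _ _ _
    refine ⟨type3_main cyz cen G, type4_main cyz cen G,
      fun h6 => six_simple Pool.Agent.L0h89.MO.t_FIC h6, fun h6 => ⟨power_conj h6, ?_, ?_, ?_⟩, ?_, ?_,
      two_classes, fun h5 => ⟨?_, ?_, ?_, ?_, five_simple h5⟩,
      fun h => fs_none cyz cen Pool.Agent.L0h89.MO.t_FIC G (ea_fs h)⟩
    · exact fun g hg => six_rat Pool.Agent.L0h90.MO.t_RAT h6 g hg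
    · exact fun S hS g => six_dist h6 S hS g
    · rcases hinf G with h | ⟨g, hg⟩
      · exact Or.inl (six_tors h6 h)
      · exact Or.inr (six_free Pool.Agent.L0h60.MO.FRM h6 g hg)
    · rintro h6 ⟨S, hS, hu⟩
      exact six_undist h6 S hS hu
    · rintro h6 (h3 | h7)
      · exact three_six Pool.Agent.L0h90.MO.t_RAT h3 h6
      · exact six_seven Pool.Agent.L0h60.MO.FRM Pool.Agent.L0h85.MO.GRW h7 h6
    · intro h2
      obtain ⟨g, hg⟩ := exists_ne (1 : G)
      exact hg (five_two h5 h2 g)
    · exact fun h3 => three_five h3 h5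
    · exact fun h4 => three_five (type4_main cyz cen G h4).1 h5
    · exact fun g hg => five_rat Pool.Agent.L0h90.MO.t_RAT h5 g hg
  · rintro ⟨G, _, hfp, hi, h3⟩
    have := fg_of_fp G hfp
    obtain ⟨-, -, hs, hi', h3', hfp'⟩ := type3_main cyz cen G h3
    exact ⟨G ⧸ center G, inferInstance, hfp' hfp, hi', hs, h3'⟩
  · rintro ⟨G, _, hfp, hi, -, h3⟩
    exact ⟨G, _, hfp, hi, h3⟩
  · rintro ⟨G, _, hfp, hi, h4⟩
    have := fg_of_fp G hfp
    exact ⟨G, _, hfp, hi, (type4_main cyz cen G h4).2, h4⟩
  · rintro ⟨G, _, hfp, hi, -, h4⟩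
    exact ⟨G, _, hfp, hi, h4⟩
  · rintro ⟨G, _, hfp, hi, h6⟩
    obtain ⟨R, M, hM, -, -, hs, hi', h6', hfp'⟩ := six_simple Pool.Agent.L0h89.MO.t_FIC h6
    exact ⟨R ⧸ M, inferInstance, hfp' hfp, hi', hs, h6'⟩
  · rintro ⟨G, _, hfp, hi, -, h6⟩
    exact ⟨G, _, hfp, hi, h6⟩

end Pool.Agent.Results.MP_65b575_al.SimpleMonsters
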